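import Mathlib

/-! Uniform averages over finite types. -/

set_option autoImplicit false

open Finset BigOperators

namespace Pool.Agent.Helper40.B4

/-- uniform average of a real function on a finite type -/
noncomputable def av {α : Type*} [Fintype α] (f : α → ℝ) : ℝ := (∑ a, f a) / (Fintype.card α : ℝ)

section
variable {α β : Type*} [Fintype α] [Fintype β]

lemma av_congr {f g : α → ℝ} (h : ∀ a, f a = g a) : av f = av g := by
  unfold av; simp only [h]

lemma av_add (f g : α → ℝ) : av (fun a => f a + g a) = av f + av g := by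
  unfold av; rw [Finset.sum_add_distrib, add_div]

lemma av_sub (f g : α → ℝ) : av (fun a => f a - g a) = av f - av g := by
  unfold av; rw [Finset.sum_sub_distrib, sub_div]

lemma av_mul_left (c : ℝ) (f : α → ℝ) : av (fun a => c * f a) = c * av f := by
  unfold av; rw [← Finset.mul_sum, mul_div_assoc]

lemma av_mul_right (c : ℝ) (f : α → ℝ) : av (fun a => f a * c) = av f * c := by
  rw [mul_comm, ← av_mul_left]; exact av_congr (fun a => mul_comm _ _)

lemma av_sum {ι : Type*} (s : Finset ι) (f : ι → α → ℝ) :
    av (fun a => ∑ i ∈ s, f i a) = ∑ i ∈ s, av (f i) := by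
  unfold av; rw [Finset.sum_comm, Finset.sum_div]

lemma av_const [Nonempty α] (c : ℝ) : av (fun _ : α => c) = c := by
  unfold av
  have : (Fintype.card α : ℝ) ≠ 0 := by exact_mod_cast Fintype.card_ne_zero
  simp [Finset.sum_const, Finset.card_univ, nsmul_eq_mul]

lemma av_le_av {f g : α → ℝ} (h : ∀ a, f a ≤ g a) : av f ≤ av g := by
  unfold av
  exact div_le_div_of_nonneg_right (Finset.sum_le_sum (fun a _ => h a)) (Nat.cast_nonneg _)

lemma av_nonneg {f : α → ℝ} (h : ∀ a, 0 ≤ f a) : 0 ≤ av f := by
  unfold av
  exact div_nonneg (Finset.sum_nonneg (fun a _ => h a)) (Nat.cast_nonneg _)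

lemma av_le_const [Nonempty α] {f : α → ℝ} {c : ℝ} (h : ∀ a, f a ≤ c) : av f ≤ c := by
  rw [← av_const (α := α) c]; exact av_le_av h

lemma av_equiv (e : α ≃ β) (f : β → ℝ) : av (fun a => f (e a)) = av f := by
  unfold av
  rw [Equiv.sum_comp e f, Fintype.card_congr e]

lemma av_prod (f : α × β → ℝ) : av f = av (fun a => av (fun b => f (a, b))) := by
  unfold av
  rw [Fintype.sum_prod_type, Fintype.card_prod, Finset.sum_div, Finset.sum_div]
  refine Finset.sum_congr rfl (fun a _ => ?_)
  rw [Nat.cast_mul, div_div, mul_comm]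

lemma av_comm (f : α → β → ℝ) : av (fun a => av (fun b => f a b)) = av (fun b => av (fun a => f a b)) := by
  unfold av
  simp only [div_eq_mul_inv]
  rw [← Finset.sum_mul, ← Finset.sum_mul, Finset.sum_comm]
  ring

lemma av_mul_av (f : α → ℝ) (g : β → ℝ) :
    av (fun a => av (fun b => f a * g b)) = av f * av g := by
  rw [← av_mul_right]
  exact av_congr (fun a => av_mul_left _ _)

end

section pi
variable {K : Type*} [Fintype K] [DecidableEq K] {Ω : K → Type*} [∀ k, Fintype (Ω k)]

/-- resampling one coordinate -/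
lemma av_update [∀ k, Nonempty (Ω k)] (j : K) (G : (∀ k, Ω k) → ℝ) :
    av G = av (fun p => av (fun w => G (Function.update p j w))) := by
  classical
  have h1 : av (fun p => av (fun w => G (Function.update p j w)))
      = av (fun z : (∀ k, Ω k) × Ω j => G (Function.update z.1 j z.2)) := by
    rw [av_prod]
  rw [h1]
  let e : ((∀ k, Ω k) × Ω j) ≃ ((∀ k, Ω k) × Ω j) :=
    { toFun := fun z => (Function.update z.1 j z.2, z.1 j)
      invFun := fun z => (Function.update z.1 j z.2, z.1 j)
      left_inv := by rintro ⟨p, w⟩; simp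
      right_inv := by rintro ⟨p, w⟩; simp }
  have h2 : av (fun z : (∀ k, Ω k) × Ω j => G (Function.update z.1 j z.2))
      = av (fun z : (∀ k, Ω k) × Ω j => G z.1) :=
    av_equiv e (fun z => G z.1)
  rw [h2, av_prod]
  exact av_congr (fun p => (av_const _).symm)

end pi

end Pool.Agent.Helper40.B4
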