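import Mathlib
import Pool.Agent.Helper40.B4.Avg

/-! Adaptive sums (Lemma 1 and Lemma A of MP_b4da01_an.md). -/

set_option autoImplicit false
set_option linter.unusedSectionVars false

open Finset BigOperators

namespace Pool.Agent.Helper40.B4

variable {X : Type*} [NormedAddCommGroup X] [NormedSpace ℝ X]

/-- sign of a Boolean -/
def sg (b : Bool) : ℝ := if b then 1 else -1

lemma sg_cases (b : Bool) : sg b = 1 ∨ sg b = -1 := by cases b <;> simp [sg]

lemma abs_sg (b : Bool) : |sg b| = 1 := by cases b <;> simp [sg]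

/-- the cotype-like inequality COT(iota,R) -/
def COT (X : Type*) [NormedAddCommGroup X] [NormedSpace ℝ X]
    (ι : Type) [Fintype ι] [DecidableEq ι] (R : ℝ) : Prop :=
  ∀ x : ι → X, R * av (fun c => ‖x c‖) ≤ av (fun θ : ι → Bool => ‖∑ c, sg (θ c) • x c‖)

section adapted
variable {K : Type*} [Fintype K] [LinearOrder K] {Ω : K → Type*} {Ω' : K → Type*}

/-- predictable: depends on coordinates `< k` only -/
def Predict (v : K → (∀ k, Ω k) → ℝ) : Prop :=
  ∀ k p q, (∀ i, i < k → p i = q i) → v k p = v k q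

/-- adapted: depends on coordinates `≤ k` only -/
def Adapt (D : K → (∀ k, Ω k) → X) : Prop :=
  ∀ k p q, (∀ i, i ≤ k → p i = q i) → D k p = D k q

/-- every increment is symmetric -/
def Symm (m : ∀ k, Ω k → X) : Prop :=
  ∀ k, ∃ σ : Equiv.Perm (Ω k), ∀ w, m k (σ w) = - m k w

lemma Predict.update {v : K → (∀ k, Ω k) → ℝ} (hv : Predict v) (k : K) (p : ∀ k, Ω k) (w : Ω k) :
    v k (Function.update p k w) = v k p := by
  classical
  refine hv k _ _ (fun i hi => ?_)
  exact Function.update_of_ne (ne_of_lt hi) _ _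

variable [∀ k, Fintype (Ω k)] [∀ k, Nonempty (Ω k)] [∀ k, Fintype (Ω' k)] [∀ k, Nonempty (Ω' k)]

/-- Lemma 1, general form. -/
theorem lemma1 (D : K → (∀ k, Ω' k) → X) (m : ∀ k, Ω k → X) (hD : Adapt D)
    (hcomp : ∀ (k : K) (p : ∀ k, Ω' k) (a : X),
      av (fun w => ‖a + D k (Function.update p k w)‖) ≤ av (fun w => ‖a + m k w‖)) :
    av (fun p => ‖∑ k, D k p‖) ≤ av (fun p : ∀ k, Ω k => ‖∑ k, m k (p k)‖) := by
  classical
  have key : ∀ s : Finset K, av (fun z : (∀ k, Ω' k) × (∀ k, Ω k) =>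
      ‖∑ k ∈ s, D k z.1 + ∑ k ∈ sᶜ, m k (z.2 k)‖) ≤ av (fun p : ∀ k, Ω k => ‖∑ k, m k (p k)‖) := by
    intro s
    induction s using Finset.induction_on_max with
    | empty =>
      rw [av_prod]
      refine le_of_eq ?_
      simp only [Finset.sum_empty, zero_add, Finset.compl_empty]
      exact av_const _
    | insert a s ha ih =>
      refine le_trans ?_ ih
      have hna : a ∉ s := fun h => lt_irrefl _ (ha a h)
      have hcompl : sᶜ = insert a (insert a s)ᶜ := by
        ext k
        simp only [Finset.mem_compl, Finset.mem_insert, not_or]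
        by_cases h : k = a
        · subst h; simp [hna]
        · simp [h]
      have hna2 : a ∉ (insert a s)ᶜ := by simp
      -- left side
      rw [av_prod, av_comm, av_prod, av_comm (fun (p : ∀ k, Ω' k) (q : ∀ k, Ω k) =>
        ‖∑ k ∈ s, D k p + ∑ k ∈ sᶜ, m k (q k)‖)]
      -- average over p for fixed q: compare
      have h1 : ∀ q : ∀ k, Ω k,
          av (fun p : ∀ k, Ω' k => ‖∑ k ∈ insert a s, D k p + ∑ k ∈ (insert a s)ᶜ, m k (q k)‖)
          ≤ av (fun p : ∀ k, Ω' k => av (fun w : Ω a =>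
            ‖(∑ k ∈ s, D k p + ∑ k ∈ (insert a s)ᶜ, m k (q k)) + m a w‖)) := by
        intro q
        rw [av_update a]
        refine av_le_av (fun p => ?_)
        have h2 : ∀ w : Ω' a,
            ‖∑ k ∈ insert a s, D k (Function.update p a w) + ∑ k ∈ (insert a s)ᶜ, m k (q k)‖
            = ‖(∑ k ∈ s, D k p + ∑ k ∈ (insert a s)ᶜ, m k (q k)) + D a (Function.update p a w)‖ := by
          intro w
          rw [Finset.sum_insert hna]
          have h3 : ∑ k ∈ s, D k (Function.update p a w) = ∑ k ∈ s, D k p := by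
            refine Finset.sum_congr rfl (fun k hk => ?_)
            refine hD k _ _ (fun i hi => ?_)
            exact Function.update_of_ne (ne_of_lt (lt_of_le_of_lt hi (ha k hk))) _ _
          rw [h3]
          congr 1
          abel
        rw [av_congr h2]
        exact hcomp a p _
      refine le_trans (av_le_av h1) ?_
      -- right side: resample q_a
      rw [av_comm (fun (q : ∀ k, Ω k) (p : ∀ k, Ω' k) => av (fun w : Ω a =>
            ‖(∑ k ∈ s, D k p + ∑ k ∈ (insert a s)ᶜ, m k (q k)) + m a w‖)),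
          av_comm (fun (q : ∀ k, Ω k) (p : ∀ k, Ω' k) => ‖∑ k ∈ s, D k p + ∑ k ∈ sᶜ, m k (q k)‖)]
      refine av_le_av (fun p => ?_)
      rw [av_update a (fun q : ∀ k, Ω k => ‖∑ k ∈ s, D k p + ∑ k ∈ sᶜ, m k (q k)‖)]
      refine av_le_av (fun q => ?_)
      refine av_le_av (fun w => le_of_eq ?_)
      rw [hcompl, Finset.sum_insert hna2, Function.update_self]
      have h4 : ∑ k ∈ (insert a s)ᶜ, m k (Function.update q a w k) = ∑ k ∈ (insert a s)ᶜ, m k (q k) := by
        refine Finset.sum_congr rfl (fun k hk => ?_)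
        have : k ≠ a := fun h => hna2 (h ▸ hk)
        rw [Function.update_of_ne this]
      rw [h4]
      congr 1
      abel
  have h := key Finset.univ
  rw [av_prod] at h
  simp only [Finset.compl_univ, Finset.sum_empty, add_zero] at h
  have h5 : av (fun p : ∀ k, Ω' k => av (fun _ : ∀ k, Ω k => ‖∑ k, D k p‖)) = av (fun p => ‖∑ k, D k p‖) :=
    av_congr (fun p => av_const _)
  rw [h5] at h
  exact h

omit [Fintype K] [LinearOrder K] [∀ k, Nonempty (Ω k)] in
lemma av_symm {m : ∀ k, Ω k → X} (hm : Symm m) (k : K) (a : X) :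
    av (fun w => ‖a - m k w‖) = av (fun w => ‖a + m k w‖) := by
  obtain ⟨σ, hσ⟩ := hm k
  rw [← av_equiv σ (fun w => ‖a + m k w‖)]
  exact av_congr (fun w => by rw [hσ, sub_eq_add_neg])

omit [Fintype K] [LinearOrder K] in
lemma norm_le_av_symm {m : ∀ k, Ω k → X} (hm : Symm m) (k : K) (a : X) :
    ‖a‖ ≤ av (fun w => ‖a + m k w‖) := by
  have h := av_symm hm k a
  have h2 : ‖a‖ = av (fun _ : Ω k => ‖a‖) := (av_const _).symm
  have h3 : av (fun _ : Ω k => ‖a‖) ≤ av (fun w => (1/2) * ‖a - m k w‖ + (1/2) * ‖a + m k w‖) := by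
    refine av_le_av (fun w => ?_)
    have : a = (1/2 : ℝ) • (a - m k w) + (1/2 : ℝ) • (a + m k w) := by
      rw [← smul_add]; rw [show (a - m k w) + (a + m k w) = (2:ℝ) • a by rw [two_smul]; abel]
      rw [smul_smul]; norm_num
    calc ‖a‖ = ‖(1/2 : ℝ) • (a - m k w) + (1/2 : ℝ) • (a + m k w)‖ := by rw [← this]
      _ ≤ ‖(1/2 : ℝ) • (a - m k w)‖ + ‖(1/2 : ℝ) • (a + m k w)‖ := norm_add_le _ _
      _ = _ := by rw [norm_smul, norm_smul]; norm_num
  rw [av_add, av_mul_left, av_mul_left, h] at h3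
  linarith

/-- Lemma 1 for predictable multipliers in [-1,1]. -/
theorem lemma1_predict (v : K → (∀ k, Ω k) → ℝ) (hv : Predict v) (hv1 : ∀ k p, |v k p| ≤ 1)
    (m : ∀ k, Ω k → X) (hm : Symm m) :
    av (fun p => ‖∑ k, v k p • m k (p k)‖) ≤ av (fun p : ∀ k, Ω k => ‖∑ k, m k (p k)‖) := by
  classical
  refine lemma1 (fun k p => v k p • m k (p k)) m ?_ ?_
  · intro k p q h
    have h1 : v k p = v k q := hv k p q (fun i hi => h i hi.le)
    simp only [h1, h k le_rfl]
  · intro k p a
    have h1 : ∀ w : Ω k, ‖a + v k (Function.update p k w) • m k (Function.update p k w k)‖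
        = ‖a + v k p • m k w‖ := by
      intro w
      rw [hv.update, Function.update_self]
    rw [av_congr h1]
    set t := v k p with ht
    have htt := abs_le.mp (hv1 k p)
    have h2 : ∀ w : Ω k, ‖a + t • m k w‖ ≤ ((1 - t)/2) * ‖a - m k w‖ + ((1 + t)/2) * ‖a + m k w‖ := by
      intro w
      have : a + t • m k w = ((1 - t)/2) • (a - m k w) + ((1 + t)/2) • (a + m k w) := by
        module
      rw [this]
      refine le_trans (norm_add_le _ _) ?_
      rw [norm_smul, norm_smul, Real.norm_of_nonneg (by linarith [htt.2]), Real.norm_of_nonneg (by linarith [htt.1])]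
    refine le_trans (av_le_av h2) ?_
    rw [av_add, av_mul_left, av_mul_left, av_symm hm]
    apply le_of_eq; ring

end adapted

section indep
variable {ι Z : Type*} [Fintype ι] [DecidableEq ι] [Fintype Z] [Nonempty Z]

lemma av_proj (c : ι) (G : Z → ℝ) : av (fun z : ι → Z => G (z c)) = av G := by
  rw [av_update (Ω := fun _ : ι => Z) c (fun z : ι → Z => G (z c))]
  simp only [Function.update_self]
  exact av_const _

lemma av_indep {c c' : ι} (h : c ≠ c') (A B : Z → ℝ) :
    av (fun z : ι → Z => A (z c) * B (z c')) = av A * av B := by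
  rw [av_update (Ω := fun _ : ι => Z) c (fun z : ι → Z => A (z c) * B (z c'))]
  have h1 : ∀ z : ι → Z, av (fun w : Z => A (Function.update z c w c) * B (Function.update z c w c'))
      = av A * B (z c') := by
    intro z
    rw [← av_mul_right]
    refine av_congr (fun w => ?_)
    rw [Function.update_self, Function.update_of_ne (Ne.symm h)]
  rw [av_congr h1, av_mul_left, av_proj]

end indep

section prodlemmas
variable {ι : Type*}

lemma one_sub_prod_le (s : Finset ι) (f : ι → ℝ) (h0 : ∀ i, 0 ≤ f i) (h1 : ∀ i, f i ≤ 1) :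
    1 - ∏ i ∈ s, (1 - f i) ≤ ∑ i ∈ s, f i := by
  classical
  induction s using Finset.induction_on with
  | empty => simp
  | insert a s ha ih =>
    rw [Finset.prod_insert ha, Finset.sum_insert ha]
    have hp : 0 ≤ ∏ i ∈ s, (1 - f i) := Finset.prod_nonneg (fun i _ => by linarith [h1 i])
    have hp1 : ∏ i ∈ s, (1 - f i) ≤ 1 :=
      Finset.prod_le_one (fun i _ => by linarith [h1 i]) (fun i _ => by linarith [h0 i])
    nlinarith [h0 a, h1 a]

lemma prod_one_sub_nonneg (s : Finset ι) (f : ι → ℝ) (h1 : ∀ i, f i ≤ 1) :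
    0 ≤ ∏ i ∈ s, (1 - f i) := Finset.prod_nonneg (fun i _ => by linarith [h1 i])

lemma prod_one_sub_le_one (s : Finset ι) (f : ι → ℝ) (h0 : ∀ i, 0 ≤ f i) (h1 : ∀ i, f i ≤ 1) :
    ∏ i ∈ s, (1 - f i) ≤ 1 :=
  Finset.prod_le_one (fun i _ => by linarith [h1 i]) (fun i _ => by linarith [h0 i])

/-- probability of exactly one success is at most one -/
lemma sum_exactly_one_le [DecidableEq ι] (s : Finset ι) (f : ι → ℝ) (h0 : ∀ i, 0 ≤ f i) (h1 : ∀ i, f i ≤ 1) :
    ∑ c ∈ s, f c * ∏ c' ∈ s.erase c, (1 - f c') + ∏ c ∈ s, (1 - f c) ≤ 1 := by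
  induction s using Finset.induction_on with
  | empty => simp
  | insert a s ha ih =>
    have e1 : ∑ c ∈ insert a s, f c * ∏ c' ∈ (insert a s).erase c, (1 - f c')
        = f a * ∏ c' ∈ s, (1 - f c') + (1 - f a) * ∑ c ∈ s, f c * ∏ c' ∈ s.erase c, (1 - f c') := by
      rw [Finset.sum_insert ha, Finset.erase_insert ha, Finset.mul_sum]
      congr 1
      refine Finset.sum_congr rfl (fun c hc => ?_)
      have hca : c ≠ a := fun h => ha (h ▸ hc)
      rw [Finset.erase_insert_of_ne (Ne.symm hca), Finset.prod_insert (fun h => ha (Finset.mem_of_mem_erase h))]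
      ring
    rw [e1, Finset.prod_insert ha]
    have hp : 0 ≤ ∏ i ∈ s, (1 - f i) := prod_one_sub_nonneg s f h1
    have hs : 0 ≤ ∑ c ∈ s, f c * ∏ c' ∈ s.erase c, (1 - f c') :=
      Finset.sum_nonneg (fun c _ => mul_nonneg (h0 c) (prod_one_sub_nonneg _ f h1))
    have hp1 : ∏ i ∈ s, (1 - f i) ≤ 1 := prod_one_sub_le_one s f h0 h1
    nlinarith [h0 a, h1 a, mul_nonneg (sub_nonneg.mpr (h1 a)) (sub_nonneg.mpr ih)]

end prodlemmas

end Pool.Agent.Helper40.B4
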