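import Mathlib
import Pool.Agent.Helper40.B4.LemmaA

/-! The doubling step of Lemma A. -/

set_option autoImplicit false
set_option linter.unusedSectionVars false

open Finset BigOperators

namespace Pool.Agent.Helper40.B4

variable {X : Type*} [NormedAddCommGroup X] [NormedSpace ℝ X]
variable {K : Type} [Fintype K] [LinearOrder K] {Ω : K → Type}
variable [∀ k, Fintype (Ω k)] [∀ k, Nonempty (Ω k)]

/-- uniform bound for families of predictable strategies of density at most `d` -/
def Bd (m : ∀ k, Ω k → X) (d B : ℝ) : Prop :=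
  ∀ (Λ : Type) [Fintype Λ] [Nonempty Λ] (v : Λ → K → (∀ k, Ω k) → ℝ),
    (∀ l, Predict (v l)) → (∀ l k p, 0 ≤ v l k p ∧ v l k p ≤ 1) →
    (∀ k, av (fun l => av (fun p => v l k p)) ≤ d) →
    av (fun l => av (fun p : ∀ k, Ω k => ‖∑ k, v l k p • m k (p k)‖)) ≤ B

lemma Bd_trivial (m : ∀ k, Ω k → X) (d : ℝ) :
    Bd m d (d * ∑ k, av (fun w => ‖m k w‖)) := by
  classical
  intro Λ _ _ v hv hv01 hd
  have h1 : ∀ l, av (fun p : ∀ k, Ω k => ‖∑ k, v l k p • m k (p k)‖)
      ≤ ∑ k, av (fun p => v l k p) * av (fun w => ‖m k w‖) := by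
    intro l
    calc av (fun p : ∀ k, Ω k => ‖∑ k, v l k p • m k (p k)‖)
        ≤ av (fun p : ∀ k, Ω k => ∑ k, v l k p * ‖m k (p k)‖) := by
          refine av_le_av (fun p => ?_)
          refine le_trans (norm_sum_le _ _) (Finset.sum_le_sum (fun k _ => ?_))
          rw [norm_smul, Real.norm_of_nonneg (hv01 l k p).1]
      _ = ∑ k, av (fun p : ∀ k, Ω k => v l k p * ‖m k (p k)‖) := av_sum _ _
      _ = ∑ k, av (fun p => v l k p) * av (fun w => ‖m k w‖) := by
          refine Finset.sum_congr rfl (fun k _ => ?_)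
          rw [av_update k (fun p : ∀ k, Ω k => v l k p * ‖m k (p k)‖), ← av_mul_right]
          refine av_congr (fun p => ?_)
          rw [← av_mul_left]
          refine av_congr (fun w => ?_)
          rw [(hv l).update, Function.update_self]
  refine le_trans (av_le_av h1) ?_
  rw [av_sum, Finset.mul_sum]
  refine Finset.sum_le_sum (fun k _ => ?_)
  rw [av_mul_right]
  exact mul_le_mul_of_nonneg_right (hd k) (av_nonneg (fun w => norm_nonneg _))

/-- the reindexing of independent copies -/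
def copies (ι Λ : Type) (Ω : K → Type) :
    ((ι → Λ) × (∀ k, (ι → Ω k))) ≃ (ι → Λ × (∀ k, Ω k)) where
  toFun := fun z c => (z.1 c, fun k => z.2 k c)
  invFun := fun z => (fun c => (z c).1, fun k c => (z c).2 k)
  left_inv := fun _ => rfl
  right_inv := fun _ => rfl

section step
variable {ι : Type} [Fintype ι] [DecidableEq ι]

/-- granted multiplier -/
noncomputable def gr {Λ : Type} (v : Λ → K → (∀ k, Ω k) → ℝ) (c : ι) (k : K)
    (z : ι → Λ × (∀ k, Ω k)) : ℝ :=
  v (z c).1 k (z c).2 * ∏ c' ∈ Finset.univ.erase c, (1 - v (z c').1 k (z c').2)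

lemma granted_bound {Λ : Type} [Fintype Λ] [Nonempty Λ] (m : ∀ k, Ω k → X) (hm : Symm m)
    (v : Λ → K → (∀ k, Ω k) → ℝ) (hv : ∀ l, Predict (v l))
    (hv01 : ∀ l k p, 0 ≤ v l k p ∧ v l k p ≤ 1) (θ : ι → Bool) :
    av (fun z : ι → Λ × (∀ k, Ω k) => ‖∑ c, sg (θ c) • ∑ k, gr v c k z • m k ((z c).2 k)‖)
      ≤ av (fun p : ∀ k, Ω k => ‖∑ k, m k (p k)‖) := by
  classical
  rw [← av_equiv (copies ι Λ Ω), av_prod]
  refine av_le_const (fun lam => ?_)
  -- adapted differences
  let D : K → (∀ k, ι → Ω k) → X := fun k ω =>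
    ∑ c, sg (θ c) • (gr v c k (copies ι Λ Ω (lam, ω)) • m k (ω k c))
  have hgr_congr : ∀ (c : ι) (k : K) (ω ω' : ∀ k, ι → Ω k), (∀ i, i < k → ω i = ω' i) →
      gr v c k (copies ι Λ Ω (lam, ω)) = gr v c k (copies ι Λ Ω (lam, ω')) := by
    intro c k ω ω' h
    have h1 : ∀ c', v (lam c') k (fun k => ω k c') = v (lam c') k (fun k => ω' k c') := by
      intro c'
      exact hv _ k _ _ (fun i hi => by rw [h i hi])
    simp only [gr, copies, Equiv.coe_fn_mk]
    rw [h1 c]
    congr 1
    exact Finset.prod_congr rfl (fun c' _ => by rw [h1 c'])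
  have h0 : ∀ ω : ∀ k, ι → Ω k,
      ‖∑ c, sg (θ c) • ∑ k, gr v c k (copies ι Λ Ω (lam, ω)) • m k ((copies ι Λ Ω (lam, ω) c).2 k)‖
      = ‖∑ k, D k ω‖ := by
    intro ω
    congr 1
    simp only [D, copies, Equiv.coe_fn_mk, Finset.smul_sum]
    rw [Finset.sum_comm]
  rw [av_congr h0]
  refine lemma1 D m ?_ ?_
  · intro k ω ω' h
    simp only [D]
    refine Finset.sum_congr rfl (fun c _ => ?_)
    rw [hgr_congr c k ω ω' (fun i hi => h i hi.le), h k le_rfl]
  · intro k ω a
    set g : ι → ℝ := fun c => gr v c k (copies ι Λ Ω (lam, ω)) with hg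
    have hgn : ∀ c, 0 ≤ g c := fun c =>
      mul_nonneg (hv01 _ _ _).1 (prod_one_sub_nonneg _ (fun c' => v (lam c') k (fun k => ω k c'))
        (fun c' => (hv01 _ _ _).2))
    have hgs : ∑ c, g c ≤ 1 := by
      have h1 := sum_exactly_one_le (Finset.univ : Finset ι) (fun c' => v (lam c') k (fun k => ω k c'))
        (fun c' => (hv01 _ _ _).1) (fun c' => (hv01 _ _ _).2)
      have h2 := prod_one_sub_nonneg (Finset.univ : Finset ι) (fun c' => v (lam c') k (fun k => ω k c'))
        (fun c' => (hv01 _ _ _).2)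
      have h3 : ∑ c, g c = ∑ c, v (lam c) k (fun k => ω k c) *
          ∏ c' ∈ Finset.univ.erase c, (1 - v (lam c') k (fun k => ω k c')) := rfl
      linarith
    have hD : ∀ w : ι → Ω k, D k (Function.update ω k w) = ∑ c, g c • (sg (θ c) • m k (w c)) := by
      intro w
      simp only [D]
      refine Finset.sum_congr rfl (fun c _ => ?_)
      rw [hgr_congr c k (Function.update ω k w) ω
        (fun i hi => Function.update_of_ne (ne_of_lt hi) _ _), Function.update_self, smul_comm]
    have h4 : ∀ w : ι → Ω k, ‖a + D k (Function.update ω k w)‖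
        ≤ (1 - ∑ c, g c) * ‖a‖ + ∑ c, g c * ‖a + sg (θ c) • m k (w c)‖ := by
      intro w
      rw [hD w]
      have : a + ∑ c, g c • (sg (θ c) • m k (w c))
          = (1 - ∑ c, g c) • a + ∑ c, g c • (a + sg (θ c) • m k (w c)) := by
        simp only [smul_add, Finset.sum_add_distrib, sub_smul, one_smul, Finset.sum_smul]
        abel
      rw [this]
      refine le_trans (norm_add_le _ _) (add_le_add ?_ ?_)
      · rw [norm_smul, Real.norm_of_nonneg (by linarith)]
      · refine le_trans (norm_sum_le _ _) (Finset.sum_le_sum (fun c _ => ?_))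
        rw [norm_smul, Real.norm_of_nonneg (hgn c)]
    refine le_trans (av_le_av h4) ?_
    set S := av (fun w => ‖a + m k w‖) with hS
    have haS : ‖a‖ ≤ S := norm_le_av_symm hm k a
    have h5 : ∀ c, av (fun w : ι → Ω k => ‖a + sg (θ c) • m k (w c)‖) = S := by
      intro c
      rw [av_proj c (fun x : Ω k => ‖a + sg (θ c) • m k x‖)]
      rcases sg_cases (θ c) with h | h
      · simp [h, hS]
      · rw [h, hS, ← av_symm hm]
        exact av_congr (fun w => by rw [neg_smul, one_smul, sub_eq_add_neg])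
    rw [av_add, av_const, av_sum]
    have h6 : ∑ c, av (fun w : ι → Ω k => g c * ‖a + sg (θ c) • m k (w c)‖) = (∑ c, g c) * S := by
      rw [Finset.sum_mul]
      refine Finset.sum_congr rfl (fun c _ => ?_)
      rw [av_mul_left, h5]
    rw [h6]
    nlinarith [Finset.sum_nonneg (fun c (_ : c ∈ Finset.univ) => hgn c)]

/-- the doubling step -/
theorem Bd_step [Nonempty ι] {R : ℝ} (hR : 0 < R) (hcot : COT X ι R) (m : ∀ k, Ω k → X) (hm : Symm m)
    {d B : ℝ} (hd0 : 0 ≤ d) (hB : Bd m ((Fintype.card ι : ℝ) * d ^ 2) B) :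
    Bd m d (B + av (fun p : ∀ k, Ω k => ‖∑ k, m k (p k)‖) / R) := by
  classical
  intro Λ _ _ v hv hv01 hd
  set S := av (fun p : ∀ k, Ω k => ‖∑ k, m k (p k)‖) with hS
  let P := ∀ k, Ω k
  let Z := Λ × P
  -- full = granted + denied
  have e1 : av (fun l => av (fun p : ∀ k, Ω k => ‖∑ k, v l k p • m k (p k)‖))
      = av (fun c : ι => av (fun z : ι → Z => ‖∑ k, v (z c).1 k (z c).2 • m k ((z c).2 k)‖)) := by
    have : ∀ c : ι, av (fun z : ι → Z => ‖∑ k, v (z c).1 k (z c).2 • m k ((z c).2 k)‖)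
        = av (fun l => av (fun p : ∀ k, Ω k => ‖∑ k, v l k p • m k (p k)‖)) := by
      intro c
      rw [av_proj c (fun z : Z => ‖∑ k, v z.1 k z.2 • m k (z.2 k)‖), av_prod]
    rw [av_congr this, av_const]
  rw [e1]
  -- denied multiplier
  let hh : ι → K → (ι → Z) → ℝ := fun c k z =>
    v (z c).1 k (z c).2 * (1 - ∏ c' ∈ Finset.univ.erase c, (1 - v (z c').1 k (z c').2))
  have e2 : ∀ (c : ι) (z : ι → Z), ‖∑ k, v (z c).1 k (z c).2 • m k ((z c).2 k)‖
      ≤ ‖∑ k, hh c k z • m k ((z c).2 k)‖ + ‖∑ k, gr v c k z • m k ((z c).2 k)‖ := by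
    intro c z
    have : ∑ k, v (z c).1 k (z c).2 • m k ((z c).2 k)
        = ∑ k, hh c k z • m k ((z c).2 k) + ∑ k, gr v c k z • m k ((z c).2 k) := by
      rw [← Finset.sum_add_distrib]
      refine Finset.sum_congr rfl (fun k _ => ?_)
      rw [← add_smul]
      congr 1
      simp only [hh, gr]
      ring
    rw [this]
    exact norm_add_le _ _
  refine le_trans (av_le_av (fun c => av_le_av (fun z => e2 c z))) ?_
  have e3 : av (fun c : ι => av (fun z : ι → Z => ‖∑ k, hh c k z • m k ((z c).2 k)‖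
        + ‖∑ k, gr v c k z • m k ((z c).2 k)‖))
      = av (fun c : ι => av (fun z : ι → Z => ‖∑ k, hh c k z • m k ((z c).2 k)‖))
        + av (fun c : ι => av (fun z : ι → Z => ‖∑ k, gr v c k z • m k ((z c).2 k)‖)) := by
    rw [← av_add]
    exact av_congr (fun c => av_add _ _)
  rw [e3]
  refine add_le_add ?_ ?_
  · -- denied part
    let v' : (ι × (ι → Z)) → K → (∀ k, Ω k) → ℝ := fun cz k p =>
      v (cz.2 cz.1).1 k p * (1 - ∏ c' ∈ Finset.univ.erase cz.1, (1 - v (cz.2 c').1 k (cz.2 c').2))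
    have hv'pred : ∀ cz, Predict (v' cz) := by
      intro cz k p q h
      simp only [v']
      rw [hv _ k p q h]
    have hfac : ∀ (cz : ι × (ι → Z)) (k : K),
        0 ≤ 1 - ∏ c' ∈ Finset.univ.erase cz.1, (1 - v (cz.2 c').1 k (cz.2 c').2) ∧
        1 - ∏ c' ∈ Finset.univ.erase cz.1, (1 - v (cz.2 c').1 k (cz.2 c').2) ≤ 1 := by
      intro cz k
      have h1 := prod_one_sub_le_one (Finset.univ.erase cz.1) (fun c' => v (cz.2 c').1 k (cz.2 c').2)
        (fun c' => (hv01 _ _ _).1) (fun c' => (hv01 _ _ _).2)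
      have h2 := prod_one_sub_nonneg (Finset.univ.erase cz.1) (fun c' => v (cz.2 c').1 k (cz.2 c').2)
        (fun c' => (hv01 _ _ _).2)
      exact ⟨by linarith, by linarith⟩
    have hv'01 : ∀ cz k p, 0 ≤ v' cz k p ∧ v' cz k p ≤ 1 := by
      intro cz k p
      exact ⟨mul_nonneg (hv01 _ _ _).1 (hfac cz k).1,
        mul_le_one₀ (hv01 _ _ _).2 (hfac cz k).1 (hfac cz k).2⟩
    have hdens : ∀ k, av (fun cz => av (fun p => v' cz k p)) ≤ (Fintype.card ι : ℝ) * d ^ 2 := by
      intro k
      rw [av_prod]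
      refine av_le_const (fun c => ?_)
      let φ : Z → ℝ := fun z => v z.1 k z.2
      let ψ : Z → ℝ := fun z => av (fun p => v z.1 k p)
      have hφ0 : ∀ z, 0 ≤ φ z := fun z => (hv01 _ _ _).1
      have hψ0 : ∀ z, 0 ≤ ψ z := fun z => av_nonneg (fun p => (hv01 _ _ _).1)
      have hφd : av φ ≤ d := by
        have : av φ = av (fun l => av (fun p => v l k p)) := by rw [av_prod]
        rw [this]; exact hd k
      have hψd : av ψ ≤ d := by
        have : av ψ = av (fun l => av (fun p => v l k p)) := by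
          rw [av_prod]
          refine av_congr (fun l => ?_)
          show av (fun _ : P => av (fun p => v l k p)) = _
          exact av_const _
        rw [this]; exact hd k
      have h1 : ∀ z : ι → Z, av (fun p => v' (c, z) k p)
          ≤ ∑ c' ∈ Finset.univ.erase c, ψ (z c) * φ (z c') := by
        intro z
        have : av (fun p => v' (c, z) k p)
            = ψ (z c) * (1 - ∏ c' ∈ Finset.univ.erase c, (1 - φ (z c'))) := by
          simp only [v', ψ, φ]
          rw [av_mul_right]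
        rw [this, ← Finset.mul_sum]
        exact mul_le_mul_of_nonneg_left
          (one_sub_prod_le _ (fun c' => φ (z c')) (fun c' => hφ0 _) (fun c' => (hv01 _ _ _).2)) (hψ0 _)
      refine le_trans (av_le_av h1) ?_
      rw [av_sum]
      have h2 : ∀ c' ∈ Finset.univ.erase c, av (fun z : ι → Z => ψ (z c) * φ (z c')) ≤ d ^ 2 := by
        intro c' hc'
        rw [av_indep (Ne.symm (Finset.ne_of_mem_erase hc')) ψ φ, sq]
        exact mul_le_mul hψd hφd (av_nonneg hφ0) hd0
      refine le_trans (Finset.sum_le_sum h2) ?_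
      rw [Finset.sum_const, nsmul_eq_mul]
      refine mul_le_mul_of_nonneg_right ?_ (sq_nonneg d)
      exact_mod_cast Finset.card_le_univ _
    have h3 := hB (ι × (ι → Z)) v' hv'pred hv'01 hdens
    refine le_trans (le_of_eq ?_) h3
    rw [av_prod]
    refine av_congr (fun c => ?_)
    -- both sides: resample coordinate c
    rw [av_update (Ω := fun _ : ι => Z) c (fun z : ι → Z => ‖∑ k, hh c k z • m k ((z c).2 k)‖),
      av_update (Ω := fun _ : ι => Z) c
        (fun z : ι → Z => av (fun p : ∀ k, Ω k => ‖∑ k, v' (c, z) k p • m k (p k)‖))]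
    refine av_congr (fun z => ?_)
    rw [av_prod, av_prod]
    refine av_congr (fun l => ?_)
    have hfix : ∀ (p : P) (k : K), ∏ c' ∈ Finset.univ.erase c,
        (1 - v (Function.update z c (l, p) c').1 k (Function.update z c (l, p) c').2)
        = ∏ c' ∈ Finset.univ.erase c, (1 - v (z c').1 k (z c').2) := by
      intro p k
      refine Finset.prod_congr rfl (fun c' hc' => ?_)
      rw [Function.update_of_ne (Finset.ne_of_mem_erase hc')]
    have hl : ∀ p : P, ‖∑ k, hh c k (Function.update z c (l, p)) • m k ((Function.update z c (l, p) c).2 k)‖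
        = ‖∑ k, (v l k p * (1 - ∏ c' ∈ Finset.univ.erase c, (1 - v (z c').1 k (z c').2))) • m k (p k)‖ := by
      intro p
      congr 1
      refine Finset.sum_congr rfl (fun k _ => ?_)
      simp only [hh, Function.update_self]
      rw [hfix p k]
    rw [av_congr hl]
    have hr : ∀ p' : P, av (fun p : ∀ k, Ω k => ‖∑ k, v' (c, Function.update z c (l, p')) k p • m k (p k)‖)
        = av (fun p : ∀ k, Ω k =>
          ‖∑ k, (v l k p * (1 - ∏ c' ∈ Finset.univ.erase c, (1 - v (z c').1 k (z c').2))) • m k (p k)‖) := by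
      intro p'
      refine av_congr (fun p => ?_)
      congr 1
      refine Finset.sum_congr rfl (fun k _ => ?_)
      simp only [v', Function.update_self]
      rw [hfix p' k]
    rw [av_congr hr, av_const]
  · -- granted part
    rw [le_div_iff₀ hR, mul_comm, ← av_mul_left]
    have h4 : av (fun c : ι => R * av (fun z : ι → Z => ‖∑ k, gr v c k z • m k ((z c).2 k)‖))
        = av (fun z : ι → Z => R * av (fun c : ι => ‖∑ k, gr v c k z • m k ((z c).2 k)‖)) := by
      rw [av_mul_left, av_mul_left, av_comm]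
    rw [h4]
    have h5 : ∀ z : ι → Z, R * av (fun c : ι => ‖∑ k, gr v c k z • m k ((z c).2 k)‖)
        ≤ av (fun θ : ι → Bool => ‖∑ c, sg (θ c) • ∑ k, gr v c k z • m k ((z c).2 k)‖) :=
      fun z => hcot _
    refine le_trans (av_le_av h5) ?_
    rw [av_comm]
    exact av_le_const (fun θ => granted_bound m hm v hv hv01 θ)

end step

end Pool.Agent.Helper40.B4
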