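import Mathlib
import Pool.Agent.Helper40.B4.Step

/-! Lemma A and its consequences (C1), (C2). -/

set_option autoImplicit false
set_option linter.unusedSectionVars false

open Finset BigOperators

namespace Pool.Agent.Helper40.B4

variable {X : Type*} [NormedAddCommGroup X] [NormedSpace ℝ X]

lemma sg_mul_flip (s : Bool) (t : Bool) : sg (xor (!s) t) = sg s * sg t := by
  cases s <;> cases t <;> simp [sg]

/-- COT is multiplicative -/
theorem COT.prod {ι κ : Type} [Fintype ι] [DecidableEq ι] [Fintype κ] [DecidableEq κ] {R R' : ℝ}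
    (hR : 0 ≤ R) (h : COT X ι R) (h' : COT X κ R') : COT X (ι × κ) (R * R') := by
  classical
  intro x
  -- symmetrise
  let e : (ι → Bool) → ((ι × κ → Bool) ≃ (ι × κ → Bool)) := fun ε =>
    { toFun := fun θ c => xor (!(ε c.1)) (θ c)
      invFun := fun θ c => xor (!(ε c.1)) (θ c)
      left_inv := by intro θ; funext c; simp
      right_inv := by intro θ; funext c; simp }
  have h1 : av (fun θ : ι × κ → Bool => ‖∑ c, sg (θ c) • x c‖)
      = av (fun θ : ι × κ → Bool => av (fun ε : ι → Bool =>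
          ‖∑ i, sg (ε i) • ∑ j, sg (θ (i, j)) • x (i, j)‖)) := by
    rw [av_comm]
    have : ∀ ε : ι → Bool, av (fun θ : ι × κ → Bool => ‖∑ i, sg (ε i) • ∑ j, sg (θ (i, j)) • x (i, j)‖)
        = av (fun θ : ι × κ → Bool => ‖∑ c, sg (θ c) • x c‖) := by
      intro ε
      rw [← av_equiv (e ε) (fun θ : ι × κ → Bool => ‖∑ c, sg (θ c) • x c‖)]
      refine av_congr (fun θ => ?_)
      congr 1
      rw [Fintype.sum_prod_type]
      refine Finset.sum_congr rfl (fun i _ => ?_)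
      rw [Finset.smul_sum]
      refine Finset.sum_congr rfl (fun j _ => ?_)
      rw [smul_smul]
      congr 1
      exact (sg_mul_flip _ _).symm
    rw [av_congr this, av_const]
  rw [h1]
  have h2 : ∀ θ : ι × κ → Bool, R * av (fun i => ‖∑ j, sg (θ (i, j)) • x (i, j)‖)
      ≤ av (fun ε : ι → Bool => ‖∑ i, sg (ε i) • ∑ j, sg (θ (i, j)) • x (i, j)‖) := fun θ => h _
  refine le_trans ?_ (av_le_av h2)
  rw [av_mul_left, av_comm, mul_assoc]
  refine mul_le_mul_of_nonneg_left ?_ hR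
  rw [av_prod, ← av_mul_left]
  refine av_le_av (fun i => ?_)
  refine le_trans (h' (fun j => x (i, j))) ?_
  -- marginal on {i} x kappa
  apply le_of_eq
  let F : (κ → Bool) → ℝ := fun φ => ‖∑ j, sg (φ j) • x (i, j)‖
  show av F = av (fun θ : ι × κ → Bool => F (fun j => θ (i, j)))
  have h3 := av_equiv (Equiv.curry ι κ Bool) (fun w : ι → κ → Bool => F (w i))
  have h4 := av_proj (ι := ι) (Z := κ → Bool) i F
  rw [← h4, ← h3]
  rfl

/-- powers of COT -/
theorem COT.pow {ι : Type} [Fintype ι] [DecidableEq ι] [Nonempty ι] {R : ℝ} (hR : 0 ≤ R)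
    (h : COT X ι R) {k0 : ℕ} (hk0 : Fintype.card ι ≤ k0) (l : ℕ) :
    ∃ (κ : Type) (_ : Fintype κ) (_ : DecidableEq κ), Nonempty κ ∧ Fintype.card κ ≤ k0 ^ l ∧
      COT X κ (R ^ l) := by
  induction l with
  | zero =>
    refine ⟨Unit, inferInstance, inferInstance, inferInstance, by simp, ?_⟩
    intro x
    rw [pow_zero, one_mul]
    have : ∀ θ : Unit → Bool, ‖∑ c, sg (θ c) • x c‖ = av (fun c => ‖x c‖) := by
      intro θ
      have h1 : av (fun c => ‖x c‖) = ‖x ()‖ := by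
        unfold av; simp
      rw [h1]
      simp [norm_smul, abs_sg]
    rw [av_congr this, av_const]
  | succ l ih =>
    obtain ⟨κ, i1, i2, i3, hc, hcot⟩ := ih
    refine ⟨ι × κ, inferInstance, inferInstance, inferInstance, ?_, ?_⟩
    · rw [Fintype.card_prod, pow_succ, mul_comm]
      exact Nat.mul_le_mul hc hk0
    · rw [pow_succ, mul_comm]
      exact COT.prod hR h hcot

section
variable {K : Type} [Fintype K] [LinearOrder K] {Ω : K → Type}
variable [∀ k, Fintype (Ω k)] [∀ k, Nonempty (Ω k)]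

lemma Bd.mono {m : ∀ k, Ω k → X} {d d' B B' : ℝ} (h : Bd m d B) (hd : d' ≤ d) (hB : B ≤ B') :
    Bd m d' B' := by
  intro Λ _ _ v hv hv01 hd'
  exact le_trans (h Λ v hv hv01 (fun k => le_trans (hd' k) hd)) hB

/-- the densities -/
noncomputable def del (k0 : ℕ) (l : ℕ) : ℝ := ((k0 : ℝ) ^ (2 * l + 2))⁻¹

lemma del_pos {k0 : ℕ} (hk : 2 ≤ k0) (l : ℕ) : 0 < del k0 l := by
  unfold del; positivity

lemma del_step {k0 : ℕ} (hk : 2 ≤ k0) (l : ℕ) {c : ℝ} (hc : c ≤ (k0 : ℝ) ^ l) :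
    c * del k0 l ^ 2 ≤ del k0 (l + 1) := by
  have hk1 : (1 : ℝ) ≤ k0 := by exact_mod_cast (by omega : 1 ≤ k0)
  have hkp : (0 : ℝ) < k0 := by linarith
  unfold del
  have h1 : c * (((k0 : ℝ) ^ (2 * l + 2))⁻¹) ^ 2 ≤ (k0 : ℝ) ^ l * (((k0 : ℝ) ^ (2 * l + 2))⁻¹) ^ 2 :=
    mul_le_mul_of_nonneg_right hc (by positivity)
  refine le_trans h1 ?_
  rw [inv_pow, ← pow_mul, ← div_eq_mul_inv, div_le_iff₀ (by positivity), ← div_eq_inv_mul,
    le_div_iff₀ (by positivity), ← pow_add]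
  exact pow_le_pow_right₀ hk1 (by omega)

theorem Bd_iter {ι : Type} [Fintype ι] [DecidableEq ι] [Nonempty ι] {ρ : ℝ} (hρ : 1 < ρ)
    (hcot : COT X ι ρ) {k0 : ℕ} (hk : 2 ≤ k0) (hk0 : Fintype.card ι ≤ k0)
    (m : ∀ k, Ω k → X) (hm : Symm m) (J : ℕ) : ∀ l : ℕ,
    Bd m (del k0 l) (∑ i ∈ Finset.range J, av (fun p : ∀ k, Ω k => ‖∑ k, m k (p k)‖) / ρ ^ (l + i)
      + del k0 (l + J) * ∑ k, av (fun w => ‖m k w‖)) := by
  have hρ0 : 0 < ρ := by linarith
  induction J with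
  | zero =>
    intro l
    simpa using Bd_trivial m (del k0 l)
  | succ J ih =>
    intro l
    obtain ⟨κ, i1, i2, i3, hc, hcotl⟩ := COT.pow hρ0.le hcot hk0 l
    have h1 := ih (l + 1)
    have h2 : (Fintype.card κ : ℝ) * del k0 l ^ 2 ≤ del k0 (l + 1) :=
      del_step hk l (by exact_mod_cast hc)
    have h3 := Bd_step (pow_pos hρ0 l) hcotl m hm (del_pos hk l).le (h1.mono h2 le_rfl)
    refine h3.mono le_rfl (le_of_eq ?_)
    rw [Finset.sum_range_succ', add_zero]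
    have : ∀ i, av (fun p : ∀ k, Ω k => ‖∑ k, m k (p k)‖) / ρ ^ (l + 1 + i)
        = av (fun p : ∀ k, Ω k => ‖∑ k, m k (p k)‖) / ρ ^ (l + (i + 1)) := by
      intro i
      congr 2
      ring
    simp only [this]
    rw [show l + 1 + J = l + (J + 1) by ring]
    ring

end

/-- Lemma A. -/
theorem lemmaA {ι : Type} [Fintype ι] [DecidableEq ι] [Nonempty ι] {ρ : ℝ} (hρ : 1 < ρ)
    (hcot : COT X ι ρ) : ∃ a : ℝ, 0 < a ∧ ∀ (K : Type) [Fintype K] [LinearOrder K] (Ω : K → Type)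
      [∀ k, Fintype (Ω k)] [∀ k, Nonempty (Ω k)] (m : ∀ k, Ω k → X), Symm m →
      ∀ v : K → (∀ k, Ω k) → ℝ, Predict v → (∀ k p, 0 ≤ v k p ∧ v k p ≤ 1) →
      (∀ k, av (fun p => v k p) ≤ a) →
      av (fun p : ∀ k, Ω k => ‖∑ k, v k p • m k (p k)‖)
        ≤ (1 / 2) * av (fun p : ∀ k, Ω k => ‖∑ k, m k (p k)‖) := by
  classical
  have hρ0 : 0 < ρ := by linarith
  have hr : 0 < 1 - ρ⁻¹ := by
    have : ρ⁻¹ < 1 := inv_lt_one_of_one_lt₀ hρ
    linarith
  -- choose l0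
  obtain ⟨l0, hl0⟩ : ∃ l0 : ℕ, (ρ⁻¹) ^ l0 < (1 - ρ⁻¹) / 2 := by
    exact exists_pow_lt_of_lt_one (by linarith) (inv_lt_one_of_one_lt₀ hρ)
  set k0 : ℕ := max (Fintype.card ι) 2 with hk0
  have hk : 2 ≤ k0 := le_max_right _ _
  have hcard : Fintype.card ι ≤ k0 := le_max_left _ _
  refine ⟨del k0 l0, del_pos hk l0, ?_⟩
  intro K _ _ Ω _ _ m hm v hv hv01 hd
  set S := av (fun p : ∀ k, Ω k => ‖∑ k, m k (p k)‖) with hS
  have hS0 : 0 ≤ S := av_nonneg (fun p => norm_nonneg _)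
  set T := ∑ k, av (fun w => ‖m k w‖) with hT
  have hJ : ∀ J : ℕ, av (fun p : ∀ k, Ω k => ‖∑ k, v k p • m k (p k)‖) ≤ (1 / 2) * S + del k0 (l0 + J) * T := by
    intro J
    have h1 := Bd_iter hρ hcot hk hcard m hm J l0 Unit (fun _ => v) (fun _ => hv) (fun _ => hv01)
      (fun k => by rw [av_const]; exact hd k)
    rw [av_const] at h1
    refine le_trans h1 (add_le_add ?_ le_rfl)
    have h2 : ∑ i ∈ Finset.range J, S / ρ ^ (l0 + i) = S * (ρ⁻¹) ^ l0 * ∑ i ∈ Finset.range J, (ρ⁻¹) ^ i := by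
      rw [Finset.mul_sum]
      refine Finset.sum_congr rfl (fun i _ => ?_)
      rw [pow_add, inv_pow, inv_pow]
      field_simp
    rw [h2]
    have h3 : ∑ i ∈ Finset.range J, (ρ⁻¹) ^ i ≤ (1 - ρ⁻¹)⁻¹ := by
      have hsum := Summable.sum_le_tsum (Finset.range J) (fun i _ => by positivity)
        (summable_geometric_of_lt_one (by positivity) (inv_lt_one_of_one_lt₀ hρ))
      rw [tsum_geometric_of_lt_one (by positivity) (inv_lt_one_of_one_lt₀ hρ)] at hsum
      exact hsum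
    have h4 : (ρ⁻¹) ^ l0 * (1 - ρ⁻¹)⁻¹ ≤ 1 / 2 := by
      rw [← div_eq_mul_inv, div_le_iff₀ hr]
      linarith
    calc S * (ρ⁻¹) ^ l0 * ∑ i ∈ Finset.range J, (ρ⁻¹) ^ i
        ≤ S * (ρ⁻¹) ^ l0 * (1 - ρ⁻¹)⁻¹ := mul_le_mul_of_nonneg_left h3 (by positivity)
      _ = S * ((ρ⁻¹) ^ l0 * (1 - ρ⁻¹)⁻¹) := by ring
      _ ≤ S * (1 / 2) := mul_le_mul_of_nonneg_left h4 hS0
      _ = _ := by ring
  -- limit
  have hlim : Filter.Tendsto (fun J : ℕ => (1 / 2) * S + del k0 (l0 + J) * T) Filter.atTop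
      (nhds ((1 / 2) * S + 0 * T)) := by
    refine Filter.Tendsto.add tendsto_const_nhds (Filter.Tendsto.mul_const T ?_)
    have hk1 : (1 : ℝ) < k0 := by exact_mod_cast (by omega : 1 < k0)
    have h5 : Filter.Tendsto (fun J : ℕ => ((k0 : ℝ) ^ (2 * (l0 + J) + 2))⁻¹) Filter.atTop (nhds 0) := by
      refine Filter.Tendsto.inv_tendsto_atTop ?_
      refine (tendsto_pow_atTop_atTop_of_one_lt hk1).comp ?_
      refine Filter.tendsto_atTop_mono (fun J => ?_) Filter.tendsto_id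
      simp only [id]
      omega
    exact h5
  have := ge_of_tendsto hlim (Filter.Eventually.of_forall hJ)
  simpa using this

section cons
variable {K : Type} [Fintype K] [LinearOrder K] {Ω : K → Type}
variable [∀ k, Fintype (Ω k)] [∀ k, Nonempty (Ω k)]

/-- (C2), second half: restricting to a set of times and to predictable events decreases. -/
theorem av_block_le (m : ∀ k, Ω k → X) (hm : Symm m) (e : K → (∀ k, Ω k) → ℝ) (he : Predict e)
    (he1 : ∀ k p, |e k p| ≤ 1) (b : Finset K) :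
    av (fun p : ∀ k, Ω k => ‖∑ k ∈ b, e k p • m k (p k)‖) ≤ av (fun p : ∀ k, Ω k => ‖∑ k ∈ b, m k (p k)‖) := by
  classical
  let m' : ∀ k, Ω k → X := fun k w => if k ∈ b then m k w else 0
  have hm' : Symm m' := by
    intro k
    obtain ⟨σ, hσ⟩ := hm k
    refine ⟨σ, fun w => ?_⟩
    simp only [m']
    split_ifs
    · exact hσ w
    · simp
  have h := lemma1_predict e he he1 m' hm'
  have h1 : ∀ p : ∀ k, Ω k, ‖∑ k, e k p • m' k (p k)‖ = ‖∑ k ∈ b, e k p • m k (p k)‖ := by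
    intro p
    congr 1
    rw [← Finset.sum_filter_add_sum_filter_not Finset.univ (fun k => k ∈ b)]
    have h2 : ∑ k ∈ Finset.univ.filter (fun k => k ∉ b), e k p • m' k (p k) = 0 := by
      refine Finset.sum_eq_zero (fun k hk => ?_)
      simp only [Finset.mem_filter] at hk
      simp [m', hk.2]
    rw [h2, add_zero, Finset.filter_mem_eq_inter, Finset.univ_inter]
    refine Finset.sum_congr rfl (fun k hk => ?_)
    simp [m', hk]
  have h3 : ∀ p : ∀ k, Ω k, ‖∑ k, m' k (p k)‖ = ‖∑ k ∈ b, m k (p k)‖ := by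
    intro p
    congr 1
    simp only [m']
    rw [Finset.sum_ite_mem, Finset.univ_inter]
  rw [av_congr h1, av_congr h3] at h
  exact h

/-- sub-sums are smaller on average -/
theorem av_sub_le (m : ∀ k, Ω k → X) (hm : Symm m) (b : Finset K) :
    av (fun p : ∀ k, Ω k => ‖∑ k ∈ b, m k (p k)‖) ≤ av (fun p : ∀ k, Ω k => ‖∑ k, m k (p k)‖) := by
  classical
  have h := lemma1_predict (fun k _ => if k ∈ b then (1:ℝ) else 0) (fun _ _ _ _ => rfl)
    (fun k _ => by split_ifs <;> simp) m hm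
  have h1 : ∀ p : ∀ k, Ω k, ‖∑ k, (if k ∈ b then (1:ℝ) else 0) • m k (p k)‖ = ‖∑ k ∈ b, m k (p k)‖ := by
    intro p
    congr 1
    simp only [ite_smul, one_smul, zero_smul]
    rw [Finset.sum_ite_mem, Finset.univ_inter]
  rw [av_congr h1] at h
  exact h

/-- (C2), first half. -/
theorem av_blocks {ι : Type} [Fintype ι] [DecidableEq ι] {R : ℝ} (hcot : COT X ι R)
    (m : ∀ k, Ω k → X) (hm : Symm m) (b : ι → Finset K) (hb : ∀ i j, i ≠ j → Disjoint (b i) (b j)) :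
    R * av (fun i => av (fun p : ∀ k, Ω k => ‖∑ k ∈ b i, m k (p k)‖))
      ≤ av (fun p : ∀ k, Ω k => ‖∑ k, m k (p k)‖) := by
  classical
  rw [av_comm, ← av_mul_left]
  have h1 : ∀ p : ∀ k, Ω k, R * av (fun i => ‖∑ k ∈ b i, m k (p k)‖)
      ≤ av (fun θ : ι → Bool => ‖∑ i, sg (θ i) • ∑ k ∈ b i, m k (p k)‖) := fun p => hcot _
  refine le_trans (av_le_av h1) ?_
  rw [av_comm]
  refine av_le_const (fun θ => ?_)
  let v : K → (∀ k, Ω k) → ℝ := fun k _ => ∑ i, if k ∈ b i then sg (θ i) else 0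
  have hv1 : ∀ k p, |v k p| ≤ 1 := by
    intro k p
    simp only [v]
    by_cases h : ∃ i, k ∈ b i
    · obtain ⟨i, hi⟩ := h
      rw [Finset.sum_eq_single i]
      · simp [hi, abs_sg]
      · intro j _ hj
        have : k ∉ b j := fun hkj => Finset.disjoint_left.mp (hb j i hj) hkj hi
        simp [this]
      · intro h; exact absurd (Finset.mem_univ _) h
    · push Not at h
      simp [h]
  have h2 := lemma1_predict v (fun _ _ _ _ => rfl) hv1 m hm
  refine le_trans (le_of_eq ?_) h2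
  refine av_congr (fun p => ?_)
  congr 1
  simp only [v, Finset.sum_smul, Finset.smul_sum]
  rw [Finset.sum_comm (s := (Finset.univ : Finset K))]
  refine Finset.sum_congr rfl (fun i _ => ?_)
  simp only [ite_smul, zero_smul]
  rw [Finset.sum_ite_mem, Finset.univ_inter]

end cons

/-- (C1). -/
theorem C1 {ι : Type} [Fintype ι] [DecidableEq ι] [Nonempty ι] {ρ : ℝ} (hρ : 1 < ρ)
    (hcot : COT X ι ρ) : ∃ a : ℝ, 0 < a ∧ ∀ (K : Type) [Fintype K] [LinearOrder K] (Ω : K → Type)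
      [∀ k, Fintype (Ω k)] [∀ k, Nonempty (Ω k)] (m : ∀ k, Ω k → X), Symm m →
      ∀ e : K → (∀ k, Ω k) → ℝ, Predict e → (∀ k p, 0 ≤ e k p ∧ e k p ≤ 1) →
      (∀ k, 1 - a ≤ av (fun p => e k p)) →
      av (fun p : ∀ k, Ω k => ‖∑ k, m k (p k)‖)
        ≤ 2 * av (fun p : ∀ k, Ω k => ‖∑ k, e k p • m k (p k)‖) := by
  obtain ⟨a, ha, hA⟩ := lemmaA hρ hcot
  refine ⟨a, ha, ?_⟩
  intro K _ _ Ω _ _ m hm e he he01 hd
  have h1 := hA K Ω m hm (fun k p => 1 - e k p) (fun k p q h => by simp only; rw [he k p q h])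
    (fun k p => ⟨by linarith [(he01 k p).2], by linarith [(he01 k p).1]⟩)
    (fun k => by rw [av_sub, av_const]; linarith [hd k])
  have h2 : av (fun p : ∀ k, Ω k => ‖∑ k, m k (p k)‖)
      ≤ av (fun p : ∀ k, Ω k => ‖∑ k, e k p • m k (p k)‖)
        + av (fun p : ∀ k, Ω k => ‖∑ k, (1 - e k p) • m k (p k)‖) := by
    rw [← av_add]
    refine av_le_av (fun p => ?_)
    refine le_trans (le_of_eq ?_) (norm_add_le _ _)
    congr 1
    rw [← Finset.sum_add_distrib]
    refine Finset.sum_congr rfl (fun k _ => ?_)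
    rw [← add_smul]
    simp
  linarith

end Pool.Agent.Helper40.B4
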